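import Pool.Agent.MP_7a7339_al.ClassNumber

set_option autoImplicit false

namespace Pool.Agent.Results.MP_7a7339_al.ClassNumbers

/-- Let `G` and `H` be finite nonabelian groups with isomorphic non-commuting graphs, `H` nilpotent.
Then every prime divisor of `|H : Z(H)|` divides `|Z(G)|`, and if `G` is not nilpotent, then, with
`d = gcd(|Z(G)|, |Z(H)|)` and `m = gcd(|Z(G) : Z(G) ∩ G'|, |Z(H) : Z(H) ∩ H'|)` and `k` the number
of conjugacy classes (the subtractions are genuine, as `k(G) ≥ |Z(G)|`):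
* `m |H|` divides `d (k(G) - |Z(G)| + |Z(H)|)`, and `m |G|` divides `d (k(H) - |Z(H)| + |Z(G)|)`;
* `m (|G| - |Z(G)|) < 2 d (k(G) - |Z(G)|)`, and `m (|H| - |Z(H)|) < 2 d (k(H) - |Z(H)|)`;
* `m² |H : Z(H)| < 4 d²`. -/
theorem result :
    ∀ (G H : Type*) [Group G] [Group H] [Finite G] [Finite H],
      (∃ a b : G, a * b ≠ b * a) →
      (∃ a b : H, a * b ≠ b * a) →
      Nonempty (SimpleGraph.Iso
        (SimpleGraph.fromRel
          (fun x y : {g : G // g ∉ Subgroup.center G} => x.1 * y.1 ≠ y.1 * x.1))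
        (SimpleGraph.fromRel
          (fun x y : {h : H // h ∉ Subgroup.center H} => x.1 * y.1 ≠ y.1 * x.1))) →
      Group.IsNilpotent H →
      (∀ p : ℕ, p.Prime → p ∣ (Subgroup.center H).index → p ∣ Nat.card (Subgroup.center G)) ∧
      (¬ Group.IsNilpotent G →
        ∀ d m : ℕ,
          d = Nat.gcd (Nat.card (Subgroup.center G)) (Nat.card (Subgroup.center H)) →
          m = Nat.gcd ((commutator G).relIndex (Subgroup.center G))
            ((commutator H).relIndex (Subgroup.center H)) →
          (Nat.card H * m ∣ d * ((Nat.card (ConjClasses G) - Nat.card (Subgroup.center G))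
              + Nat.card (Subgroup.center H))) ∧
          (Nat.card G * m ∣ d * ((Nat.card (ConjClasses H) - Nat.card (Subgroup.center H))
              + Nat.card (Subgroup.center G))) ∧
          m * (Nat.card G - Nat.card (Subgroup.center G))
            < 2 * d * (Nat.card (ConjClasses G) - Nat.card (Subgroup.center G)) ∧
          m * (Nat.card H - Nat.card (Subgroup.center H))
            < 2 * d * (Nat.card (ConjClasses H) - Nat.card (Subgroup.center H)) ∧
          m ^ 2 * (Subgroup.center H).index < 4 * d ^ 2) := by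
  intro G H _ _ _ _ _ hH hf hnil
  obtain ⟨f⟩ := hf
  obtain ⟨E⟩ := Pool.Agent.MP_7a7339_al.exists_commEquiv f
  have : Group.IsNilpotent H := hnil
  refine ⟨fun p hp hdvd => Pool.Agent.MP_7a7339_al.dvd_card_center_of_dvd_index E hH hp hdvd, ?_⟩
  rintro hG d m rfl rfl
  obtain ⟨h1, h2, h3, h4⟩ := Pool.Agent.MP_7a7339_al.class_bounds hH E hG
  have hne : Nat.card (Subgroup.center G) ≠ Nat.card (Subgroup.center H) := fun heq =>
    hG (Pool.Agent.MP_7a7339_al.isNilpotent_of_card_center_eq E heq)
  have hNC : Nonempty (Pool.Agent.MP_7a7339_al.NC H) := by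
    obtain ⟨a, b, hab⟩ := hH
    exact ⟨⟨a, fun h => hab ((Subgroup.mem_center_iff.1 h b).symm)⟩⟩
  exact ⟨h1, h2, h3, h4, Pool.Agent.MP_7a7339_al.sq_index_lt
    (fun y => Pool.Agent.MP_7a7339_al.sq_lt_of_ne E hH hne y) hNC
    (Nat.gcd_pos_of_pos_left _ Nat.card_pos) h4⟩

end Pool.Agent.Results.MP_7a7339_al.ClassNumbers
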