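import Pool.Agent.NCG.Final

set_option autoImplicit false

namespace Pool.Agent.Results.MP_7a7339_al.CommonPrime

/-- Let `G` and `H` be finite nonabelian groups with isomorphic non-commuting graphs, `H` nilpotent.
If `G` is not nilpotent then `|H : Z(H)|` is a prime power coprime to `|G : Z(G)|`.  (So `G` is
nilpotent whenever `|G : Z(G)|` and `|H : Z(H)|` are not coprime.) -/
theorem result :
    ∀ (G H : Type*) [Group G] [Group H] [Finite G] [Finite H],
      (∃ a b : G, a * b ≠ b * a) →
      (∃ a b : H, a * b ≠ b * a) →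
      Nonempty (SimpleGraph.Iso
        (SimpleGraph.fromRel
          (fun x y : {g : G // g ∉ Subgroup.center G} => x.1 * y.1 ≠ y.1 * x.1))
        (SimpleGraph.fromRel
          (fun x y : {h : H // h ∉ Subgroup.center H} => x.1 * y.1 ≠ y.1 * x.1))) →
      Group.IsNilpotent H →
      ¬ Group.IsNilpotent G →
      IsPrimePow (Subgroup.center H).index ∧
        Nat.Coprime (Subgroup.center G).index (Subgroup.center H).index := by
  intro G H _ _ _ _ _ hH hf hnil hG
  obtain ⟨f⟩ := hf
  obtain ⟨E⟩ := Pool.Agent.MP_7a7339_al.exists_commEquiv f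
  have : Group.IsNilpotent H := hnil
  obtain ⟨p, k, hp, hk1, hk, hnd⟩ := Pool.Agent.NCG.structure_of_not_nilpotent hH E hG
  rw [hk]
  exact ⟨hp.isPrimePow.pow (by omega),
    (Nat.Coprime.pow_left k ((Nat.Prime.coprime_iff_not_dvd hp).2 hnd)).symm⟩

end Pool.Agent.Results.MP_7a7339_al.CommonPrime
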