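import Pool.Agent.MP_7a7339_al.Coprime

set_option autoImplicit false

namespace Pool.Agent.Results.MP_7a7339_al.LargeCentralizer

/-- If the non-commuting graphs of the finite nonabelian groups `G` and `H` are isomorphic, `H` is
nilpotent, and some noncentral element `x` of `H` satisfies `|C_H(x)|^2 ≥ |H| |Z(H)|`
(equivalently: the class of `x` has at most `√|H : Z(H)|` elements), then `G` is nilpotent. -/
theorem result :
    ∀ (G H : Type*) [Group G] [Group H] [Finite G] [Finite H],
      (∃ a b : G, a * b ≠ b * a) →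
      (∃ a b : H, a * b ≠ b * a) →
      Nonempty (SimpleGraph.Iso
        (SimpleGraph.fromRel
          (fun x y : {g : G // g ∉ Subgroup.center G} => x.1 * y.1 ≠ y.1 * x.1))
        (SimpleGraph.fromRel
          (fun x y : {h : H // h ∉ Subgroup.center H} => x.1 * y.1 ≠ y.1 * x.1))) →
      Group.IsNilpotent H →
      (∃ x : H, x ∉ Subgroup.center H ∧
        Nat.card H * Nat.card (Subgroup.center H) ≤ Nat.card (Subgroup.centralizer {x}) ^ 2) →
      Group.IsNilpotent G := by
  intro G H _ _ _ _ _ hH hf hnil hx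
  obtain ⟨f⟩ := hf
  obtain ⟨E⟩ := Pool.Agent.MP_7a7339_al.exists_commEquiv f
  obtain ⟨x, hxc, hle⟩ := hx
  have : Group.IsNilpotent H := hnil
  by_cases heq : Nat.card (Subgroup.center G) = Nat.card (Subgroup.center H)
  · exact Pool.Agent.MP_7a7339_al.isNilpotent_of_card_center_eq E heq
  · exact absurd (Pool.Agent.MP_7a7339_al.sq_lt_of_ne E hH heq ⟨x, hxc⟩) (not_lt.2 hle)

end Pool.Agent.Results.MP_7a7339_al.LargeCentralizer
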